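import Mathlib

/-!
# A (3,2,1)-conjugate-orthogonal idempotent Latin square of order 12

We exhibit an explicit idempotent quasigroup of order 12 which is orthogonal to its
(3,2,1)-conjugate.  It has an automorphism of order 6 acting as two 6-cycles
(0 1 2 3 4 5)(6 7 8 9 10 11).
-/

namespace Pool.Agent.Results.MP_b1d8d5_co.ExistsCOILS12

/-- `op` is a quasigroup operation on `S`: each of the equations `a ∘ x = b` and `x ∘ a = b`
has exactly one solution. -/
def IsQuasigroup {S : Type} (op : S → S → S) : Prop :=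
  ∀ a b : S, (∃! x, op a x = b) ∧ (∃! x, op x a = b)

/-- `star` is the (3,2,1)-conjugate of `op`: `z ∘₃₂₁ y = x ↔ x ∘ y = z`. -/
def IsConj321 {S : Type} (op star : S → S → S) : Prop :=
  ∀ x y z : S, star z y = x ↔ op x y = z

/-- Two binary operations are orthogonal if there are no `a ≠ b`, `c ≠ d` with
`a ∘ c = b ∘ d` and `a ⋆ c = b ⋆ d`. -/
def Orthogonal {S : Type} (op star : S → S → S) : Prop :=
  ¬ ∃ a b c d : S, a ≠ b ∧ c ≠ d ∧ op a c = op b d ∧ star a c = star b d

/-- `op` is a (3,2,1)-COILS: an idempotent quasigroup orthogonal to its (3,2,1)-conjugate. -/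
def IsCOILS321 {S : Type} (op : S → S → S) : Prop :=
  IsQuasigroup op ∧ (∀ x, op x x = x) ∧ ∃ star : S → S → S, IsConj321 op star ∧ Orthogonal op star

/-- The multiplication table. -/
def tbl : Fin 12 → Fin 12 → Fin 12 :=
  ![![0, 8, 1, 9, 7, 3, 2, 5, 11, 10, 6, 4],
    ![4, 1, 9, 2, 10, 8, 5, 3, 0, 6, 11, 7],
    ![9, 5, 2, 10, 3, 11, 8, 0, 4, 1, 7, 6],
    ![6, 10, 0, 3, 11, 4, 7, 9, 1, 5, 2, 8],
    ![5, 7, 11, 1, 4, 6, 9, 8, 10, 2, 0, 3],
    ![7, 0, 8, 6, 2, 5, 4, 10, 9, 11, 3, 1],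
    ![8, 11, 5, 4, 0, 10, 6, 2, 7, 3, 1, 9],
    ![11, 9, 6, 0, 5, 1, 10, 7, 3, 8, 4, 2],
    ![2, 6, 10, 7, 1, 0, 3, 11, 8, 4, 9, 5],
    ![1, 3, 7, 11, 8, 2, 0, 4, 6, 9, 5, 10],
    ![3, 2, 4, 8, 6, 9, 11, 1, 5, 7, 10, 0],
    ![10, 4, 3, 5, 9, 7, 1, 6, 2, 0, 8, 11]]

theorem tbl_row_inj : ∀ a x y : Fin 12, tbl a x = tbl a y → x = y := by decide +kernel

theorem tbl_col_inj : ∀ a x y : Fin 12, tbl x a = tbl y a → x = y := by decide +kernel

theorem tbl_idem : ∀ x : Fin 12, tbl x x = x := by decide +kernel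

/-- The key property: for each `x` the map `y ↦ (x ∘ y) ∘ y` is injective. -/
theorem tbl_sq_inj : ∀ x c d : Fin 12, tbl (tbl x c) c = tbl (tbl x d) d → c = d := by
  decide +kernel

theorem tbl_quasigroup : IsQuasigroup tbl := by
  intro a b
  constructor
  · have h : Function.Injective (tbl a) := fun x y hxy => tbl_row_inj a x y hxy
    obtain ⟨x, hx⟩ := (Finite.injective_iff_surjective.mp h) b
    exact ⟨x, hx, fun y hy => h (hy.trans hx.symm)⟩
  · have h : Function.Injective (fun x => tbl x a) := fun x y hxy => tbl_col_inj a x y hxy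
    obtain ⟨x, hx⟩ := (Finite.injective_iff_surjective.mp h) b
    exact ⟨x, hx, fun y hy => h (hy.trans hx.symm)⟩

/-- There is a (3,2,1)-COILS of order 12: an idempotent quasigroup of order 12 that is
orthogonal to its (3,2,1)-conjugate. -/
theorem result : ∃ op : Fin 12 → Fin 12 → Fin 12, IsCOILS321 op := by
  refine ⟨tbl, tbl_quasigroup, tbl_idem, ?_⟩
  have hq := tbl_quasigroup
  refine ⟨fun z y => Classical.choose ((hq y z).2), ?_, ?_⟩
  · intro x y z
    have hspec := Classical.choose_spec ((hq y z).2)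
    constructor
    · rintro rfl
      exact hspec.1
    · intro h
      exact (hspec.2 x h).symm
  · rintro ⟨a, b, c, d, hab, hcd, h1, h2⟩
    apply hcd
    have ha := (Classical.choose_spec ((hq c a).2)).1
    have hb := (Classical.choose_spec ((hq d b).2)).1
    simp only at ha hb h2
    rw [← h2] at hb
    generalize Classical.choose ((hq c a).2) = x at ha hb
    apply tbl_sq_inj x c d
    rw [ha, hb]
    exact h1

end Pool.Agent.Results.MP_b1d8d5_co.ExistsCOILS12
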